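import Pool.Agent.Q35.DP.Plan

/-! Project DP, job DEL: the invariant derivation of an elliptic function field. -/

set_option autoImplicit false
set_option linter.unusedSectionVars false

namespace Pool.Agent.Q203.DPF

open MvPolynomial FF Pool.Agent.W603.LV Pool.Agent.TH145.GH Pool.Agent.Y166.DP Pool.Agent.Q35.DP

theorem ord_two_mul {k K : Type} [Field k] [Field K] [Algebra k K] [CharZero k]
    (P : Place k K) {f : K} (hf : f ≠ 0) : P.ord (2 * f) = P.ord f := by
  have h2 : (2 : k) ≠ 0 := two_ne_zero
  have h3 : (2 : K) = algebraMap k K 2 := by rw [map_ofNat]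
  have h4 : (2 : K) ≠ 0 := by
    rw [h3]
    exact (map_ne_zero_iff _ (algebraMap k K).injective).2 h2
  rw [P.ord_mul h4 hf]
  rw [h3, P.ord_const h2, zero_add]

/-- A function whose value at `P` is a nonzero constant has order zero. -/
theorem ord_of_value {k K : Type} [Field k] [Field K] [Algebra k K] (P : Place k K) {f : K} {b : k}
    (hb : b ≠ 0) (h : Ge P 1 (f - algebraMap k K b)) : f ≠ 0 ∧ P.ord f = 0 := by
  have hb' : algebraMap k K b ≠ 0 := (map_ne_zero_iff _ (algebraMap k K).injective).2 hb
  rcases h with h | h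
  · rw [sub_eq_zero.1 h]
    exact ⟨hb', P.ord_const hb⟩
  · have h0 : f - algebraMap k K b ≠ 0 := by
      intro h0
      rw [h0, P.ord_zero] at h
      omega
    have h1 := P.ord_add_eq hb' h0 (by rw [P.ord_const hb]; omega)
    rw [P.ord_const hb] at h1
    simpa using h1

/-- **JOB DEL.** -/
theorem del : StmInf → StmPts → StmDel := by
  intro hInf hPts k K _ _ _ _ _ _ lam x y h
  obtain ⟨D, hD⟩ := exists_der (k := k) (K := K)
  have hDx : D x ≠ 0 := der_ne_zero hD h.tr
  have hy0 := Ell.y0 h
  have h2K : (2 : K) ≠ 0 := by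
    have : CharZero K := charZero_of_injective_algebraMap (algebraMap k K).injective
    exact two_ne_zero
  let δ : Derivation k K K := (2 * y / D x) • D
  have hδx : δ x = 2 * y := by
    change (2 * y / D x) * D x = _
    field_simp
  have hδ0 : δ ≠ 0 := by
    intro h0
    rw [h0] at hδx
    have : (0 : K) = 2 * y := hδx
    exact mul_ne_zero h2K hy0 this.symm
  have hδy : δ y = cub' lam x := by
    have h1 := congrArg δ h.eqn
    have e2 : δ (y ^ 2) = 2 * y * δ y := by
      rw [pow_two, δ.leibniz]
      simp only [smul_eq_mul]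
      ring
    have e3 : δ (x * (x - 1) * (x - algebraMap k K lam)) = cub' lam x * (2 * y) := by
      rw [δ.leibniz, δ.leibniz, map_sub, map_sub, hδx, δ.map_one_eq_zero, δ.map_algebraMap]
      simp only [smul_eq_mul]
      unfold cub'
      ring
    rw [e2, e3] at h1
    have h5 : (2 * y) * (δ y - cub' lam x) = 0 := by
      linear_combination h1
    exact sub_eq_zero.1 ((mul_eq_zero.1 h5).resolve_left (mul_ne_zero h2K hy0))
  refine ⟨δ, hδx, hδy, hδ0, fun P => ?_⟩
  obtain ⟨o, hox, hoy, ho⟩ := hInf k K lam x y h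
  obtain ⟨hA, hB, hC⟩ := hPts k K lam x y h
  by_cases hP : P = o
  · subst hP
    have h1 := ord_der P hδ0 (f := x) (by omega)
    rw [hδx, ord_two_mul P hy0] at h1
    omega
  · obtain ⟨hx, hy⟩ := ho P hP
    obtain ⟨a, b, hab, ha, hb⟩ := hA P hx
    obtain ⟨-, h3, h4⟩ := hC a b P ha hb
    have e : δ (x - algebraMap k K a) = 2 * y := by
      rw [map_sub, δ.map_algebraMap, sub_zero, hδx]
    by_cases hb0 : b = 0
    · obtain ⟨h5, h6⟩ := h4 hb0
      have h1 := ord_der P hδ0 (f := x - algebraMap k K a) (by omega)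
      rw [e, ord_two_mul P hy0] at h1
      omega
    · have h5 := h3 hb0
      have h6 := ord_of_value P hb0 hb
      have h1 := ord_der P hδ0 (f := x - algebraMap k K a) (by omega)
      rw [e, ord_two_mul P hy0] at h1
      omega

end Pool.Agent.Q203.DPF
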