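import Pool.Agent.Y166.DP.Stm
import Mathlib

/-! Project DP, job GEN: generic points of varieties over the complex numbers. -/

set_option autoImplicit false
set_option linter.unusedSectionVars false

namespace Pool.Agent.Q203.DPF

open MvPolynomial Cardinal


/-- A field of at most the cardinality of the continuum embeds into `ℂ` over a countable field. -/
theorem embed (R F : Type) [Field R] [Field F] [Algebra R F] [Algebra R ℂ] (hR : #R ≤ ℵ₀)
    (hF : #F ≤ #ℂ) : ∃ θ : F →+* ℂ, ∀ r : R, θ (algebraMap R F r) = algebraMap R ℂ r := by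
  obtain ⟨s, hs⟩ := exists_isTranscendenceBasis R F
  obtain ⟨t, ht⟩ := exists_isTranscendenceBasis R ℂ
  have h1 : #ℂ = #t := IsAlgClosed.cardinal_eq_cardinal_transcendence_basis_of_aleph0_lt' _ ht hR
    (by rw [Cardinal.mk_complex]; exact Cardinal.aleph0_lt_continuum)
  have h2 : #s ≤ #t := by rw [← h1]; exact (mk_set_le s).trans hF
  obtain ⟨e⟩ := h2
  have hi : AlgebraicIndependent R (fun i : s => (e i : ℂ)) := ht.1.comp e e.injective
  let ψ : Algebra.adjoin R (Set.range ((↑) : s → F)) →ₐ[R] ℂ :=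
    (aeval (fun i : s => (e i : ℂ))).comp hs.1.aevalEquiv.symm.toAlgHom
  have hψ : Function.Injective ψ :=
    Function.Injective.comp (g := (aeval (fun i : s => (e i : ℂ)) : MvPolynomial s R →ₐ[R] ℂ)) hi
      hs.1.aevalEquiv.symm.injective
  letI : Algebra (Algebra.adjoin R (Set.range ((↑) : s → F))) ℂ := ψ.toRingHom.toAlgebra
  haveI : Algebra.IsAlgebraic (Algebra.adjoin R (Set.range ((↑) : s → F))) F := hs.isAlgebraic
  haveI : FaithfulSMul (Algebra.adjoin R (Set.range ((↑) : s → F))) ℂ :=
    (faithfulSMul_iff_algebraMap_injective _ _).2 hψ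
  let θ : F →ₐ[Algebra.adjoin R (Set.range ((↑) : s → F))] ℂ := IsAlgClosed.lift
  refine ⟨θ.toRingHom, fun r => ?_⟩
  have h3 : algebraMap R F r = algebraMap (Algebra.adjoin R (Set.range ((↑) : s → F))) F
    (algebraMap R _ r) := rfl
  rw [h3]
  change θ _ = _
  rw [θ.commutes]
  exact ψ.commutes r

theorem gen0 (σ : Type) [Finite σ] (I : Ideal (MvPolynomial σ ℂ)) (hI : I.IsPrime)
    (h : MvPolynomial σ ℂ) (hh : h ∉ I) (lam : ℂ) (hlam : Transcendental ℚ lam) :
    ∃ ξ : σ → ℂ, (∀ F ∈ I, eval ξ F = 0) ∧ eval ξ h ≠ 0 ∧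
      ∃ j : Fin (Cardinal.toNat (Algebra.trdeg ℂ (MvPolynomial σ ℂ ⧸ I))) → σ,
        AlgebraicIndependent ℚ (Fin.cons lam (fun i => ξ (j i)) : Fin (_ + 1) → ℂ) := by
  classical
  haveI := Fintype.ofFinite σ
  haveI := hI
  obtain ⟨S, hS⟩ : I.FG := IsNoetherian.noetherian I
  let C : Set ℂ := {lam} ∪ ⋃ p ∈ (insert h S : Finset (MvPolynomial σ ℂ)), Set.range fun m => coeff m p
  have hC : C.Countable := by
    refine Set.Countable.union (Set.countable_singleton _) ?_
    exact Set.Countable.biUnion (Finset.countable_toSet _) fun p _ => Set.countable_range _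
  let k₁ : Subfield ℂ := Subfield.closure C
  have hk : #k₁ ≤ ℵ₀ := (Subfield.cardinalMk_closure_le_max C).trans
    (max_le (Set.Countable.le_aleph0 hC) le_rfl)
  have hsub : C ⊆ k₁ := Subfield.subset_closure
  let A := MvPolynomial σ ℂ ⧸ I
  let F := FractionRing A
  have hinf : ℵ₀ ≤ #ℂ := by rw [Cardinal.mk_complex]; exact Cardinal.aleph0_le_continuum
  have hF : #F ≤ #ℂ := by
    change #(FractionRing A) ≤ _
    rw [Cardinal.mk_fractionRing]
    refine (Cardinal.mk_le_of_surjective (Ideal.Quotient.mk_surjective (I := I))).trans ?_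
    refine MvPolynomial.cardinalMk_le_max.trans ?_
    refine max_le (max_le le_rfl ?_) hinf
    exact (Cardinal.mk_le_aleph0_iff.2 inferInstance).trans hinf
  obtain ⟨θ, hθ⟩ := embed k₁ F hk hF
  have hθ' : ∀ c ∈ C, θ (algebraMap ℂ F c) = c := fun c hc => hθ ⟨c, hsub hc⟩
  let x : σ → F := fun s => algebraMap A F (Ideal.Quotient.mk I (X s))
  have hx : ∀ p : MvPolynomial σ ℂ, aeval x p = algebraMap A F (Ideal.Quotient.mk I p) := by
    intro p
    have h1 : (aeval x : MvPolynomial σ ℂ →ₐ[ℂ] F) =
        (IsScalarTower.toAlgHom ℂ A F).comp (Ideal.Quotient.mkₐ ℂ I) := by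
      apply MvPolynomial.algHom_ext
      intro i
      simp [x]
      rfl
    rw [h1]
    rfl
  have hev : ∀ p : MvPolynomial σ ℂ, (∀ m, coeff m p ∈ C) →
      eval (fun s => θ (x s)) p = θ (aeval x p) := by
    intro p hp
    rw [MvPolynomial.aeval_def, MvPolynomial.eval₂_eq', MvPolynomial.eval_eq', map_sum]
    refine Finset.sum_congr rfl fun m _ => ?_
    rw [map_mul, hθ' _ (hp m), map_prod]
    simp only [map_pow]
  have hCm : ∀ p ∈ insert h S, ∀ m, coeff m p ∈ C := by
    intro p hp m
    exact Or.inr (Set.mem_biUnion hp ⟨m, rfl⟩)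
  refine ⟨fun s => θ (x s), ?_, ?_, ?_⟩
  · intro G hG
    have h1 : Ideal.span (S : Set (MvPolynomial σ ℂ)) ≤ RingHom.ker (eval (fun s => θ (x s))) := by
      rw [Ideal.span_le]
      intro p hp
      change eval _ p = 0
      rw [hev p (hCm p (Finset.mem_insert_of_mem hp)), hx]
      have h2 : Ideal.Quotient.mk I p = 0 := by
        rw [Ideal.Quotient.eq_zero_iff_mem]
        have h4 : p ∈ Ideal.span (S : Set (MvPolynomial σ ℂ)) := Ideal.subset_span hp
        rwa [hS] at h4
      rw [h2, map_zero, map_zero]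
    exact h1 (by rw [hS]; exact hG)
  · rw [hev h (hCm h (Finset.mem_insert_self _ _)), hx]
    intro h0
    have h1 := (map_eq_zero θ).1 h0
    rw [map_eq_zero_iff _ (IsFractionRing.injective A F), Ideal.Quotient.eq_zero_iff_mem] at h1
    exact hh h1
  · let xA : σ → A := fun s => Ideal.Quotient.mk I (X s)
    have hadj : Algebra.adjoin ℂ (Set.range xA) = ⊤ := by
      have h1 : (Ideal.Quotient.mkₐ ℂ I).range = ⊤ :=
        (AlgHom.range_eq_top _).2 (Ideal.Quotient.mkₐ_surjective ℂ I)
      rw [← h1, ← Algebra.map_top, ← MvPolynomial.adjoin_range_X, AlgHom.map_adjoin, ← Set.range_comp]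
      rfl
    haveI : Algebra.IsAlgebraic (Algebra.adjoin ℂ (Set.range xA)) A := by
      rw [hadj]
      exact ⟨fun a => isAlgebraic_algebraMap (⟨a, trivial⟩ : (⊤ : Subalgebra ℂ A))⟩
    obtain ⟨T, hTs, hT⟩ := exists_isTranscendenceBasis_subset (R := ℂ) (Set.range xA)
    have hTf : T.Finite := (Set.finite_range xA).subset hTs
    haveI := hTf.fintype
    have hcard : Cardinal.toNat (Algebra.trdeg ℂ A) = Fintype.card T := by
      rw [← hT.cardinalMk_eq_trdeg, Cardinal.mk_fintype, Cardinal.toNat_natCast]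
    let e : Fin (Cardinal.toNat (Algebra.trdeg ℂ A)) ≃ T := (finCongr hcard).trans (Fintype.equivFin T).symm
    have hsel : ∀ t : T, ∃ s : σ, xA s = t := fun t => hTs t.2
    choose sel hsel using hsel
    refine ⟨fun i => sel (e i), ?_⟩
    have h1 : AlgebraicIndependent ℂ (fun i => x (sel (e i))) := by
      have h2 : AlgebraicIndependent ℂ (fun i => xA (sel (e i))) := by
        have : (fun i => xA (sel (e i))) = (fun t : T => (t : A)) ∘ e := by
          funext i
          exact hsel _
        rw [this]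
        exact hT.1.comp e e.injective
      exact h2.map' (f := IsScalarTower.toAlgHom ℂ A F) (IsFractionRing.injective A F)
    have h2 : AlgebraicIndependent ℚ (fun _ : Unit => lam) := by
      rw [algebraicIndependent_unique_type_iff]
      exact hlam
    have h3 := AlgebraicIndependent.sumElim_comp (A := F) h2 h1
    have h4 := h3.map' (f := θ.toRatAlgHom) θ.injective
    have h5 := h4.comp (Fin.cases (Sum.inr ()) Sum.inl) (by
      intro a b
      refine Fin.cases ?_ (fun a => ?_) a <;> refine Fin.cases ?_ (fun b => ?_) b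
      · simp
      · simp
      · simp
      · simp)
    convert h5 using 1
    funext i
    refine Fin.cases ?_ (fun i => ?_) i
    · exact (hθ' lam (Or.inl rfl)).symm
    · rfl

theorem gen : Pool.Agent.Y166.DP.StmGen := by
  intro σ _ I hI h hh lam hlam
  exact gen0 σ I hI h hh lam hlam

end Pool.Agent.Q203.DPF
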