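import Pool.Agent.Q35.DP.Plan

/-! Project DP, job INJ: the functions `uu` determine their parameters. -/

set_option autoImplicit false
set_option linter.unusedSectionVars false

namespace Pool.Agent.Q203.DPF

open MvPolynomial FF Pool.Agent.W603.LV Pool.Agent.TH145.GH Pool.Agent.Y166.DP Pool.Agent.Q35.DP

section
variable {L : Type} [Field L]

theorem der_div0 (D : Derivation ℤ L L) {a b : L} (ha : D a = 0) (hb : D b = 0) :
    D (a / b) = 0 := by
  rw [Derivation.leibniz_div, ha, hb]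
  simp

theorem der_mul0 (D : Derivation ℤ L L) {a b : L} (ha : D a = 0) (hb : D b = 0) :
    D (a * b) = 0 := by
  rw [D.leibniz, ha, hb]
  simp

theorem der_add0 (D : Derivation ℤ L L) {a b : L} (ha : D a = 0) (hb : D b = 0) :
    D (a + b) = 0 := by
  rw [map_add, ha, hb, add_zero]

theorem der_sub0 (D : Derivation ℤ L L) {a b : L} (ha : D a = 0) (hb : D b = 0) :
    D (a - b) = 0 := by
  rw [map_sub, ha, hb, sub_zero]

theorem der_pow0 (D : Derivation ℤ L L) {a : L} (ha : D a = 0) (n : ℕ) :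
    D (a ^ n) = 0 := by
  rw [D.leibniz_pow, ha]
  simp

theorem der_of_sq [CharZero L] (D : Derivation ℤ L L) {a : L} (h0 : a ≠ 0) (ha : D (a ^ 2) = 0) :
    D a = 0 := by
  have h1 : D (a ^ 2) = 2 * a * D a := by
    rw [pow_two, D.leibniz]
    simp only [smul_eq_mul]
    ring
  rw [h1] at ha
  exact (mul_eq_zero.1 ha).resolve_left (mul_ne_zero two_ne_zero h0)

end

section
variable {k K : Type} [Field k] [Field K] [Algebra k K] {x y : K} {α β γ : k} {m : ℕ}

theorem fn_zero (x y : K) : fn x y 0 = 1 := by simp [fn]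

theorem fn_one (x y : K) : fn x y 1 = x := by simp [fn]

/-- coordinates of `r0` -/
theorem r0_eq (r : Fin m → k) : r0 x y α β γ r = fsum x y (N := m + 1)
    (Fin.cons (-∑ j, r j * fn (px α β γ) (py α β γ) ((j : ℕ) + 1)) r) := by
  unfold r0 fsum
  rw [Fin.sum_univ_succ]
  simp only [Fin.cons_zero, Fin.cons_succ, Fin.val_zero, Fin.val_succ, fn_zero, mul_one, map_neg,
    map_sum, map_mul, mul_sub, Finset.sum_sub_distrib]
  ring

/-- coordinates of `r1` -/
theorem r1_eq (s : Fin m → k) : r1 x y α β γ s = fsum x y (N := m + 2)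
    (Fin.cons 0 (Fin.cons
      (-∑ j, s j * (fn (px α β γ) (py α β γ) ((j : ℕ) + 2) / px α β γ)) s)) := by
  unfold r1 fsum
  rw [Fin.sum_univ_succ, Fin.sum_univ_succ]
  simp only [Fin.cons_zero, Fin.cons_succ, Fin.val_zero, Fin.val_succ, fn_zero, mul_one, map_neg,
    map_sum, map_mul, mul_sub, Finset.sum_sub_distrib, map_zero, zero_add, fn_one]
  have e : ∑ j : Fin m, algebraMap k K (s j) * (algebraMap k K
      (fn (px α β γ) (py α β γ) ((j : ℕ) + 2) / px α β γ) * x) =
      (∑ j : Fin m, algebraMap k K (s j) * algebraMap k K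
      (fn (px α β γ) (py α β γ) ((j : ℕ) + 2) / px α β γ)) * x := by
    rw [Finset.sum_mul]
    exact Finset.sum_congr rfl fun j _ => by ring
  rw [e]
  have e2 : ∀ j : Fin m, (j : ℕ) + 1 + 1 = (j : ℕ) + 2 := fun j => rfl
  simp only [e2]
  ring

theorem r0_der {D : Derivation ℤ k k} {D' : Derivation ℤ K K} (hl : Lifts D D') (hx : D' x = 0)
    (hy : D' y = 0) (h1 : D (px α β γ) = 0) (h2 : D (py α β γ) = 0) (r : Fin m → k) :
    D' (r0 x y α β γ r) = r0 x y α β γ (fun j => D (r j)) := by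
  unfold r0
  rw [map_sum]
  refine Finset.sum_congr rfl fun j _ => ?_
  rw [D'.leibniz, map_sub, lift_fn hx hy, hl, hl, lift_fn h1 h2]
  simp [mul_comm]

theorem r1_der {D : Derivation ℤ k k} {D' : Derivation ℤ K K} (hl : Lifts D D') (hx : D' x = 0)
    (hy : D' y = 0) (h1 : D (px α β γ) = 0) (h2 : D (py α β γ) = 0) (s : Fin m → k) :
    D' (r1 x y α β γ s) = r1 x y α β γ (fun j => D (s j)) := by
  unfold r1
  rw [map_sum]
  refine Finset.sum_congr rfl fun j _ => ?_
  have h3 : D' (algebraMap k K (fn (px α β γ) (py α β γ) ((j : ℕ) + 2) / px α β γ) * x) = 0 := by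
    apply der_mul0 D' _ hx
    rw [hl, der_div0 D (lift_fn h1 h2 _) h1, map_zero]
  rw [D'.leibniz, map_sub, lift_fn hx hy, hl, h3]
  simp [mul_comm]

end

/-- **JOB INJ.** -/
theorem inj : StmInf → StmPts → StmBasis → StmPhi → StmUU → StmPres → StmInj := by
  intro hInf _ hBasis hPhi hUU hPres k K _ _ _ _ _ _ lam x y h α β γ hβ hγ habc hsig m r s hm hr hs
    _ D D' hlam hl hx hu
  obtain ⟨o, hox, hoy, ho⟩ := hInf k K lam x y h
  have ho' : o.ord x < 0 := by omega
  obtain ⟨-, hind, -⟩ := hBasis k K lam x y h o ho'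
  have hcK : CharZero K := charZero_of_injective_algebraMap (algebraMap k K).injective
  have hy : D' y = 0 := lift_y h hl hlam hx
  have hα0 : α ≠ 0 := fun h0 => habc (by rw [h0]; ring)
  have hβ0 : β ≠ 0 := fun h0 => habc (by rw [h0]; ring)
  have hγ0 : γ ≠ 0 := fun h0 => habc (by rw [h0]; ring)
  have hr0z : ∀ c : Fin m → k, r0 x y α β γ c = 0 → c = 0 := by
    intro c hc
    rw [r0_eq] at hc
    have h1 := hind _ _ hc
    funext j
    have h2 := congrFun h1 j.succ
    simpa using h2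
  have hr1z : ∀ c : Fin m → k, r1 x y α β γ c = 0 → c = 0 := by
    intro c hc
    rw [r1_eq] at hc
    have h1 := hind _ _ hc
    funext j
    have h2 := congrFun h1 j.succ.succ
    simpa using h2
  have hr0 : r0 x y α β γ r ≠ 0 := fun h0 => hr (hr0z r h0)
  have hr1 : r1 x y α β γ s ≠ 0 := fun h0 => hs (hr1z s h0)
  obtain ⟨p, p', -, -, -, hp1, hp2, -, -, hphi, -⟩ := hPhi k K lam x y h o ho' α β γ hβ hγ habc hsig
  obtain ⟨-, -, hu0p⟩ := hUU k K lam x y h o ho' α β γ hβ hγ habc hsig m r s 0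
  have hu0 := hu0p p hp1 hp2
  have e0 : uu x y α β γ r s 0 = r0 x y α β γ r ^ 2 / phi x y α β γ := rfl
  have e1 : uu x y α β γ r s 1 = r1 x y α β γ s ^ 2 / (x * phi x y α β γ) := rfl
  have hu0ne : uu x y α β γ r s 0 ≠ 0 := by
    rw [e0]
    exact div_ne_zero (pow_ne_zero 2 hr0) hphi
  have hord : p.ord (uu x y α β γ r s 0) ≠ 0 := by
    have := hu0.resolve_left hu0ne
    omega
  have hSem : Sem k D' := fun c => ⟨D c, hl c⟩
  obtain ⟨hP1, hP2⟩ := hPres k K p D' hSem
  have hπ := hP1 (unif p) (ord_unif p) _ hu0ne hord (hu 0)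
  have h2 := hP2 (unif p) (ord_unif p) hπ 1 _ hp1
  rw [map_sub, hx, hl, zero_sub] at h2
  have hDα2 : D (α ^ 2) = 0 := by
    by_contra hne
    have h3 : algebraMap k K (D (α ^ 2)) ≠ 0 := (map_ne_zero_iff _ (algebraMap k K).injective).2 hne
    have h4 := h2.neg
    rw [neg_neg] at h4
    have h5 := h4.resolve_left h3
    rw [p.ord_const hne] at h5
    omega
  have hDα : D α = 0 := der_of_sq D hα0 hDα2
  have hDβ : D β = 0 := der_of_sq D hβ0 (by rw [hβ]; exact der_sub0 D hDα2 D.map_one_eq_zero)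
  have hDγ : D γ = 0 := der_of_sq D hγ0 (by rw [hγ]; exact der_sub0 D hDα2 hlam)
  have hpx : D (px α β γ) = 0 := der_mul0 D (der_add0 D hDα hDβ) (der_add0 D hDα hDγ)
  have hpy : D (py α β γ) = 0 :=
    der_mul0 D (der_mul0 D (der_add0 D hDα hDβ) (der_add0 D hDα hDγ)) (der_add0 D hDβ hDγ)
  have hDphi : D' (phi x y α β γ) = 0 := by
    have c1 : D' (algebraMap k K (α * β * γ)) = 0 := by
      rw [hl, der_mul0 D (der_mul0 D hDα hDβ) hDγ, map_zero]
    have c2 : D' (algebraMap k K (α + β + γ)) = 0 := by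
      rw [hl, der_add0 D (der_add0 D hDα hDβ) hDγ, map_zero]
    have c3 : D' (algebraMap k K (α ^ 2)) = 0 := by
      rw [hl, hDα2, map_zero]
    unfold phi
    exact der_div0 D' (der_sub0 D' (der_add0 D' hy c1) (der_mul0 D' c2 (der_sub0 D' hx c3)))
      (der_sub0 D' hx c3)
  have hD0 : D' (r0 x y α β γ r) = 0 := by
    apply der_of_sq D' hr0
    have e : r0 x y α β γ r ^ 2 = uu x y α β γ r s 0 * phi x y α β γ := by
      rw [e0, div_mul_cancel₀ _ hphi]
    rw [e]
    exact der_mul0 D' (hu 0) hDphi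
  have hD1 : D' (r1 x y α β γ s) = 0 := by
    apply der_of_sq D' hr1
    have e : r1 x y α β γ s ^ 2 = uu x y α β γ r s 1 * (x * phi x y α β γ) := by
      rw [e1, div_mul_cancel₀ _ (mul_ne_zero (Ell.x0 h) hphi)]
    rw [e]
    exact der_mul0 D' (hu 1) (der_mul0 D' hx hDphi)
  rw [r0_der hl hx hy hpx hpy] at hD0
  rw [r1_der hl hx hy hpx hpy] at hD1
  exact ⟨hDα, fun j => congrFun (hr0z _ hD0) j, fun j => congrFun (hr1z _ hD1) j⟩

end Pool.Agent.Q203.DPF
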