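import Pool.Agent.Q35.DP.Plan

/-! Project DP, job PTA: the point with given parameters. -/

set_option autoImplicit false
set_option linter.unusedSectionVars false

namespace Pool.Agent.Q203.DPF

open MvPolynomial FF Pool.Agent.W603.LV Pool.Agent.TH145.GH Pool.Agent.Y166.DP Pool.Agent.Q35.DP

theorem ge_of_sq {k K : Type} [Field k] [Field K] [Algebra k K] {P : Place k K} {f : K} {n : ℤ}
    (h : Ge P (2 * n) (f ^ 2)) : Ge P n f := by
  by_cases hf : f = 0
  · exact Or.inl hf
  · right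
    have h1 := h.resolve_left (pow_ne_zero 2 hf)
    rw [P.ord_pow] at h1
    push_cast at h1
    omega

theorem ge_cmul {k K : Type} [Field k] [Field K] [Algebra k K] {P : Place k K} {f : K} {n : ℤ}
    (c : k) (h : Ge P n f) : Ge P n (algebraMap k K c * f) := by
  have := (Ge.const (P := P) c).mul h
  rwa [zero_add] at this

theorem ge_mulc {k K : Type} [Field k] [Field K] [Algebra k K] {P : Place k K} {f : K} {n : ℤ}
    (c : k) (h : Ge P n f) : Ge P n (f * algebraMap k K c) := by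
  rw [mul_comm]
  exact ge_cmul c h

theorem ge_gg {k K : Type} [Field k] [Field K] [Algebra k K] {P : Place k K} {u : Fin 2 → K} {n : ℤ}
    (τ a ω : k) (h : ∀ i, Ge P n (u i)) (i : Fin 3) : Ge P n (gg τ a ω u i) := by
  have ht : Ge P n ((u 1 - u 0) * algebraMap k K (3 * τ / ω)) := ge_mulc _ ((h 1).sub (h 0))
  have hs : Ge P n (u 0 + algebraMap k K ((-2 * (τ ^ 4 - 1) + ω) / (6 * τ)) *
      ((u 1 - u 0) * algebraMap k K (3 * τ / ω))) := (h 0).add (ge_cmul _ ht)
  fin_cases i
  · exact hs.add (ge_cmul _ ht)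
  · exact (ge_cmul _ hs).sub ht
  · exact ge_cmul _ hs

/-- **JOB PTA.** -/
theorem pta : StmInf → StmPts → StmBasis → StmPhi → StmUU → StmTan → S_PTA := by
  intro hInf _ hBasis hPhi hUU hTan k K _ _ _ _ _ _ lam x y h α β γ hβ hγ habc hsig m r s hm hht
    τ a ω haτ hωτ hτ0 hω0 ha0
  obtain ⟨o, hox, hoy, ho⟩ := hInf k K lam x y h
  have ho' : o.ord x < 0 := by omega
  obtain ⟨-, -, hbas⟩ := hBasis k K lam x y h o ho'
  obtain ⟨p, p', -, -, -, -, -, -, -, hphi, -⟩ := hPhi k K lam x y h o ho' α β γ hβ hγ habc hsig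
  set u := uu x y α β γ r s with hu
  have hU := hUU k K lam x y h o ho' α β γ hβ hγ habc hsig m r s
  obtain ⟨hq, hh⟩ := hTan k K τ a ω haτ hωτ hτ0 hω0 ha0 u
  have hx0 := Ell.x0 h
  have hgP : ∀ P : Place k K, P ≠ o → ∀ i, Ge P 0 (gg τ a ω u i) := fun P hP =>
    ge_gg τ a ω fun i => (hU i).1 P hP
  have hgo : ∀ i, Ge o (-(2 * m + 1 : ℤ)) (gg τ a ω u i) := ge_gg τ a ω fun i => (hU i).2.1
  have hc : ∀ i, ∃ c : Fin (2 * m + 1) → k, gg τ a ω u i = fsum x y c := by
    intro i
    refine (hbas (2 * m + 1) (by omega) _).1 ⟨fun P hP => hgP P hP i, ?_⟩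
    have := hgo i
    push_cast
    exact this
  choose c hc using hc
  obtain ⟨e, he⟩ := IsAlgClosed.exists_pow_nat_eq (6 * τ ^ 2 * (1 + τ ^ 4)) (n := 2) (by norm_num)
  obtain ⟨z, hz⟩ : ∃ z : K, z = algebraMap k K e * ((u 1 - u 0) * algebraMap k K (3 * τ / ω)) *
    (r0 x y α β γ r * r1 x y α β γ s / phi x y α β γ) := ⟨_, rfl⟩
  have e0 : u 0 = r0 x y α β γ r ^ 2 / phi x y α β γ := rfl
  have e1 : u 1 = r1 x y α β γ s ^ 2 / (x * phi x y α β γ) := rfl
  have hz2 : z ^ 2 = x * quart (gg τ a ω u) := by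
    have h1 : x * (u 0 * u 1) = (r0 x y α β γ r * r1 x y α β γ s / phi x y α β γ) ^ 2 := by
      rw [e0, e1]
      field_simp
    rw [hq, hz, mul_pow, mul_pow, ← h1, ← map_pow, he]
    ring
  have hzc : ∃ c' : Fin (2 * (2 * m) + 3) → k, z = fsum x y c' := by
    refine (hbas (2 * (2 * m) + 3) (by omega) _).1 ⟨fun P hP => ?_, ?_⟩
    · apply ge_of_sq
      rw [hz2]
      have h1 : Ge P 0 (quart (gg τ a ω u)) := by
        unfold quart
        have h2 := fun i => (hgP P hP i).pow 4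
        simp only [mul_zero] at h2
        exact ((h2 0).add (h2 1)).add (h2 2)
      have h3 := (ho P hP).1.mul h1
      simpa using h3
    · apply ge_of_sq
      rw [hz2]
      have h1 : Ge o (-(8 * m + 4 : ℤ)) (quart (gg τ a ω u)) := by
        unfold quart
        have h2 := fun i => ((hgo i).pow 4).mono (M := -(8 * m + 4 : ℤ)) (by push_cast; linarith)
        exact ((h2 0).add (h2 1)).add (h2 2)
      have hxo : Ge o (-2) x := Or.inr (by omega)
      refine (hxo.mul h1).mono ?_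
      push_cast
      linarith
  obtain ⟨c', hc'⟩ := hzc
  refine ⟨Sum.elim (fun q => c q.1 q.2) c', ?_, ?_⟩
  · have hgv : gv x y (Sum.elim (fun q : Fin 3 × Fin (2 * m + 1) => c q.1 q.2) c' : Idx (2 * m) → k)
        = gg τ a ω u := by
      funext i
      exact (hc i).symm
    have hxh : xh x y (Sum.elim (fun q : Fin 3 × Fin (2 * m + 1) => c q.1 q.2) c' : Idx (2 * m) → k)
        = z := hc'.symm
    refine ⟨?_, ?_, ?_⟩
    · rw [hgv]
      intro h0
      rw [h0] at hh
      rw [hht] at hh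
      have h1 : ht k (0 : Fin 3 → K) = 0 := by
        unfold ht
        simp [mo_zero]
      rw [h1] at hh
      omega
    · rw [hgv, hxh]
      exact hz2
    · rw [hgv, hh, hht]
      push_cast
      ring
  · funext i
    exact (hc i).symm

end Pool.Agent.Q203.DPF
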